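import Pool.Agent.WIR.StmtsA

/-!
# WIR, row TMV: moves to the right and down are exact
-/

set_option autoImplicit false

namespace Pool.Agent.WIR.H64

open Pool.Agent.WIR

theorem two_inv (N : ℕ) : (2 : ZMod (3 ^ N)) * 2⁻¹ = 1 := by
  have h : Nat.Coprime 2 (3 ^ N) := Nat.Coprime.pow_right N (by norm_num)
  have := ZMod.coe_mul_inv_eq_one (n := 3 ^ N) 2 h
  exact_mod_cast this

/-- **TMV** -/
theorem tmv (hTXM : TxmStmt) : TmvStmt := by
  intro N t ξ j l a b hj h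
  have hres : res N t ξ (j + a) l = ((9 ^ a * 2 ^ b : ℕ) : ZMod (3 ^ N)) * res N t ξ j (l + b) := by
    unfold res
    have h1 : t + 2 * (j + a) - 2 = (t + 2 * j - 2) + 2 * a := by omega
    have h2 : (2 : ZMod (3 ^ N)) ^ b * 2⁻¹ ^ b = 1 := by
      rw [← mul_pow, two_inv, one_pow]
    have h9 : (3 : ZMod (3 ^ N)) ^ (2 * a) = 9 ^ a := by
      rw [pow_mul]; norm_num
    rw [h1, pow_add, h9, pow_add]
    push_cast
    linear_combination (-(2 : ZMod (3 ^ N)) * ξ * 3 ^ (t + 2 * j - 2) * 9 ^ a * 2⁻¹ ^ l) * h2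
  have h3 := hTXM.1 N (9 ^ a * 2 ^ b) (res N t ξ j (l + b)) (by
    unfold mm at h
    push_cast
    exact h)
  unfold mm
  rw [hres, h3]
  push_cast
  ring

end Pool.Agent.WIR.H64
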